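import Mathlib

set_option autoImplicit false

namespace Pool.Agent.H761Z.TwEdges

open SimpleGraph

variable {I : Type*} {T : SimpleGraph I}

lemma parent_unique (hT : T.IsTree) (ρ : I) {x y y' : I} (h : T.Adj y x) (h' : T.Adj y' x)
    (hd : T.dist ρ x = T.dist ρ y + 1) (hd' : T.dist ρ x = T.dist ρ y' + 1) : y = y' := by
  classical
  obtain ⟨p, hp⟩ := hT.connected.exists_walk_length_eq_dist ρ y
  obtain ⟨p', hp'⟩ := hT.connected.exists_walk_length_eq_dist ρ y'
  have h1 : (p.concat h).IsPath := by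
    apply Walk.isPath_of_length_eq_dist
    rw [Walk.length_concat, hp, hd]
  have h2 : (p'.concat h').IsPath := by
    apply Walk.isPath_of_length_eq_dist
    rw [Walk.length_concat, hp', hd']
  have h3 : (⟨_, h1⟩ : T.Path ρ x) = ⟨_, h2⟩ := (hT.isAcyclic.subsingleton_path ρ x).elim _ _
  have h4 : p.concat h = p'.concat h' := congrArg Subtype.val h3
  have h5 := congrArg Walk.penultimate h4
  simpa using h5

lemma up_path (hT : T.IsTree) (ρ : I) {x t : I} (p : T.Walk x t) (hp : p.IsPath) :
    ∀ w, T.Adj w x → T.dist ρ x = T.dist ρ w + 1 → w ∉ p.support → T.dist ρ w < T.dist ρ t := by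
  induction p with
  | nil => intro w _ hd _; omega
  | @cons x y t hxy q ih =>
    intro w hw hd hn
    have hq : q.IsPath := hp.of_cons
    have hx : x ∉ q.support := by
      have := (Walk.cons_isPath_iff hxy q).1 hp
      exact this.2
    have hyw : y ≠ w := by
      rintro rfl
      apply hn
      simp
    rcases hT.dist_eq_dist_add_one_of_adj ρ hxy with h | h
    · exact absurd (parent_unique hT ρ hxy.symm hw h hd) hyw
    · have := ih hq x hxy h hx
      omega

lemma parent_mem (hT : T.IsTree) (ρ : I) (S : Set I) (hS : (T.induce S).Connected) {x t : I}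
    (hx : x ∈ S) (ht : t ∈ S) (hmin : T.dist ρ t ≤ T.dist ρ x) (hne : x ≠ t) :
    ∃ y ∈ S, T.Adj y x ∧ T.dist ρ x = T.dist ρ y + 1 := by
  classical
  obtain ⟨w⟩ := hS.preconnected ⟨x, hx⟩ ⟨t, ht⟩
  let w' : T.Walk x t := w.map (Embedding.induce S).toHom
  have hsup : ∀ z ∈ w'.support, z ∈ S := by
    intro z hz
    have h0 : w'.support = w.support.map (Embedding.induce S).toHom := Walk.support_map _ _
    rw [h0, List.mem_map] at hz
    obtain ⟨a, _, rfl⟩ := hz
    exact a.2
  have hsup2 : ∀ z ∈ w'.bypass.support, z ∈ S := fun z hz => hsup z (w'.support_bypass_subset_support hz)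
  have hpath := w'.bypass_isPath
  generalize w'.bypass = p at hsup2 hpath
  cases p with
  | nil => exact absurd rfl hne
  | @cons _ y _ hxy q =>
    have hy : y ∈ S := hsup2 y (by simp)
    rcases hT.dist_eq_dist_add_one_of_adj ρ hxy with h | h
    · exact ⟨y, hy, hxy.symm, h⟩
    · have hx' : x ∉ q.support := ((Walk.cons_isPath_iff hxy q).1 hpath).2
      have := up_path hT ρ q hpath.of_cons x hxy h hx'
      omega

lemma top_mem (hT : T.IsTree) (ρ : I) (S S' : Set I) (hS : (T.induce S).Connected)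
    (hS' : (T.induce S').Connected) {t t' : I} (ht : t ∈ S) (ht' : t' ∈ S')
    (hmin : ∀ x ∈ S, T.dist ρ t ≤ T.dist ρ x) (hmin' : ∀ x ∈ S', T.dist ρ t' ≤ T.dist ρ x)
    (hle : T.dist ρ t ≤ T.dist ρ t') :
    ∀ (n : ℕ) (i : I), T.dist ρ i = n → i ∈ S → i ∈ S' → t' ∈ S := by
  intro n
  induction n with
  | zero =>
    intro i hi h1 h2
    by_cases h : i = t'
    · exact h ▸ h1
    · obtain ⟨y, _, _, hy⟩ := parent_mem hT ρ S' hS' h2 ht' (hmin' i h2) h
      omega
  | succ n ih =>
    intro i hi h1 h2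
    by_cases h : i = t'
    · exact h ▸ h1
    · obtain ⟨y, hy1, hy2, hy3⟩ := parent_mem hT ρ S' hS' h2 ht' (hmin' i h2) h
      have h3 := hmin' y hy1
      have h4 : i ≠ t := by
        rintro rfl
        omega
      obtain ⟨z, hz1, hz2, hz3⟩ := parent_mem hT ρ S hS h1 ht (hmin i h1) h4
      have h5 := parent_unique hT ρ hy2 hz2 hy3 hz3
      subst h5
      exact ih y (by omega) hz1 hy1

/-- A graph with a tree decomposition with bags of size at most `w` has degree sum at most
`2 * w * |V|`. -/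
theorem sum_degree_le {V : Type*} [Fintype V] [DecidableEq V] (H : SimpleGraph V)
    [DecidableRel H.Adj] (hT : T.IsTree) (B : I → Finset V) (w : ℕ)
    (h1 : ∀ v, ∃ i, v ∈ B i) (h2 : ∀ u v, H.Adj u v → ∃ i, u ∈ B i ∧ v ∈ B i)
    (h3 : ∀ v, (T.induce {i | v ∈ B i}).Connected) (h4 : ∀ i, (B i).card ≤ w) :
    ∑ v, H.degree v ≤ 2 * w * Fintype.card V := by
  classical
  obtain ⟨ρ⟩ := hT.connected.nonempty
  have hex : ∀ v, ∃ t, v ∈ B t ∧ ∀ x, v ∈ B x → T.dist ρ t ≤ T.dist ρ x := by
    intro v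
    have hne : ∃ n, ∃ t, v ∈ B t ∧ T.dist ρ t = n := by
      obtain ⟨i, hi⟩ := h1 v
      exact ⟨_, i, hi, rfl⟩
    obtain ⟨t, ht, hn⟩ := Nat.find_spec hne
    refine ⟨t, ht, fun x hx => ?_⟩
    rw [hn]
    exact Nat.find_min' hne ⟨x, hx, rfl⟩
  choose top htop hmin using hex
  have key : ∀ u v, H.Adj u v → u ∈ B (top v) ∨ v ∈ B (top u) := by
    intro u v huv
    obtain ⟨i, hi1, hi2⟩ := h2 u v huv
    rcases le_total (T.dist ρ (top u)) (T.dist ρ (top v)) with h | h
    · left
      exact top_mem hT ρ {i | u ∈ B i} {i | v ∈ B i} (h3 u) (h3 v) (htop u) (htop v)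
        (hmin u) (hmin v) h _ i rfl hi1 hi2
    · right
      exact top_mem hT ρ {i | v ∈ B i} {i | u ∈ B i} (h3 v) (h3 u) (htop v) (htop u)
        (hmin v) (hmin u) h _ i rfl hi2 hi1
  have hdeg : ∀ v, H.degree v ≤ (B (top v)).card +
      (Finset.univ.filter (fun u => v ∈ B (top u))).card := by
    intro v
    rw [← SimpleGraph.card_neighborFinset_eq_degree]
    refine le_trans (Finset.card_le_card (t := B (top v) ∪
      Finset.univ.filter (fun u => v ∈ B (top u))) ?_) (Finset.card_union_le _ _)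
    intro u hu
    rw [SimpleGraph.mem_neighborFinset] at hu
    rcases key u v hu.symm with h | h
    · exact Finset.mem_union_left _ h
    · exact Finset.mem_union_right _ (by simpa using h)
  have hsum : ∑ v, (Finset.univ.filter (fun u => v ∈ B (top u))).card = ∑ u, (B (top u)).card := by
    simp only [Finset.card_filter]
    rw [Finset.sum_comm]
    refine Finset.sum_congr rfl fun u _ => ?_
    rw [← Finset.card_filter]
    congr 1
    ext v
    simp
  have hw : ∑ u, (B (top u)).card ≤ w * Fintype.card V := by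
    calc ∑ u, (B (top u)).card ≤ ∑ _u : V, w := Finset.sum_le_sum fun u _ => h4 _
      _ = w * Fintype.card V := by simp [mul_comm]
  calc ∑ v, H.degree v ≤ ∑ v, ((B (top v)).card +
      (Finset.univ.filter (fun u => v ∈ B (top u))).card) := Finset.sum_le_sum fun v _ => hdeg v
    _ = ∑ u, (B (top u)).card + ∑ u, (B (top u)).card := by rw [Finset.sum_add_distrib, hsum]
    _ ≤ 2 * w * Fintype.card V := by nlinarith

end Pool.Agent.H761Z.TwEdges
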