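import Mathlib
import Pool.Agent.H761Z.TwEdges

set_option autoImplicit false

namespace Pool.Agent.H761Z.PlanarSize

open SimpleGraph

/-- vertices: component, level, position -/
abbrev Vx (L : ℕ) := Fin L × Fin 3 × Fin (2 ^ L)

variable {L : ℕ}

def par (b : Vx L) : ℕ := if (b.2.1 : ℕ) = 1 then 0 else (b.2.2 : ℕ) / 2 ^ (b.1 : ℕ)

def R (a b : Vx L) : Prop := a.1 = b.1 ∧ (b.2.1 : ℕ) = a.2.1 + 1 ∧ (a.2.2 : ℕ) = par b

def F (L : ℕ) : SimpleGraph (Vx L) where
  Adj a b := R a b ∨ R b a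
  symm := ⟨fun _ _ h => h.symm⟩
  loopless := ⟨fun a h => by
    rcases h with h | h <;> (have := h.2.1; omega)⟩

def X (a : Vx L) : ℕ := (a.1 : ℕ) * 2 ^ L + a.2.2
def Y (a : Vx L) : ℕ := a.2.1

lemma XY_inj {a b : Vx L} (hx : X a = X b) (hy : Y a = Y b) : a = b := by
  obtain ⟨j, l, x⟩ := a
  obtain ⟨j', l', x'⟩ := b
  simp only [X, Y] at hx hy
  have hx1 := x.2
  have hx2 := x'.2
  have hj : (j : ℕ) = j' := by
    rcases lt_trichotomy (j : ℕ) j' with h | h | h
    · exfalso
      have : ((j : ℕ) + 1) * 2 ^ L ≤ j' * 2 ^ L := Nat.mul_le_mul_right _ h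
      nlinarith
    · exact h
    · exfalso
      have : ((j' : ℕ) + 1) * 2 ^ L ≤ j * 2 ^ L := Nat.mul_le_mul_right _ h
      nlinarith
  rw [hj] at hx
  have : (x : ℕ) = x' := by omega
  ext
  · exact hj
  · exact hy
  · exact this

lemma R_unique {a a' b : Vx L} (h : R a b) (h' : R a' b) : a = a' := by
  obtain ⟨h1, h2, h3⟩ := h
  obtain ⟨h1', h2', h3'⟩ := h'
  ext
  · rw [h1, h1']
  · omega
  · rw [h3, h3']

lemma X_mono {a b a' b' : Vx L} (h : R a b) (h' : R a' b') (hy : Y a = Y a') (hx : X b < X b') :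
    X a ≤ X a' := by
  obtain ⟨h1, h2, h3⟩ := h
  obtain ⟨h1', h2', h3'⟩ := h'
  simp only [X, Y] at hx hy ⊢
  have k1 := a.2.2.2
  have k2 := a'.2.2.2
  have k3 := b.2.2.2
  have k4 := b'.2.2.2
  rw [h1, h1']
  rcases lt_trichotomy (b.1 : ℕ) b'.1 with h | h | h
  · have : ((b.1 : ℕ) + 1) * 2 ^ L ≤ b'.1 * 2 ^ L := Nat.mul_le_mul_right _ h
    nlinarith
  · rw [h] at hx ⊢
    have hxx : (b.2.2 : ℕ) ≤ b'.2.2 := by omega
    have hl : (b.2.1 : ℕ) = b'.2.1 := by omega
    rw [h3, h3']
    unfold par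
    rw [hl, h]
    split_ifs
    · exact le_rfl
    · exact Nat.add_le_add_left (Nat.div_le_div_right hxx) _
  · exfalso
    have : ((b'.1 : ℕ) + 1) * 2 ^ L ≤ b.1 * 2 ^ L := Nat.mul_le_mul_right _ h
    nlinarith

noncomputable def pt (a : Vx L) : ℝ × ℝ := ((X a : ℝ), (Y a : ℝ))

noncomputable def arc (a b : Vx L) (ε t : ℝ) : ℝ × ℝ :=
  ((1 - t) * X a + t * X b + ε * (t * (1 - t)), (Y a : ℝ) + t)

lemma pt_inj : Function.Injective (pt (L := L)) := by
  intro a b h
  simp only [pt, Prod.mk.injEq, Nat.cast_inj] at h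
  exact XY_inj h.1 h.2

lemma arc_zero (a b : Vx L) (ε : ℝ) : arc a b ε 0 = pt a := by simp [arc, pt]

lemma arc_one {a b : Vx L} (h : R a b) (ε : ℝ) : arc a b ε 1 = pt b := by
  have : Y b = Y a + 1 := h.2.1
  simp [arc, pt, this]

lemma arc_pt {a b w : Vx L} (h : R a b) {ε t : ℝ} (h0 : 0 ≤ t) (h1 : t ≤ 1)
    (he : arc a b ε t = pt w) : (w = a ∧ t = 0) ∨ (w = b ∧ t = 1) := by
  have hy : (Y a : ℝ) + t = Y w := congrArg Prod.snd he
  have h2 : Y a ≤ Y w := by
    have : (Y a : ℝ) ≤ Y w := by linarith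
    exact_mod_cast this
  have h3 : Y w ≤ Y a + 1 := by
    have : (Y w : ℝ) ≤ Y a + 1 := by linarith
    exact_mod_cast this
  rcases (show Y w = Y a ∨ Y w = Y a + 1 by omega) with h4 | h4
  · left
    have ht : t = 0 := by rw [h4] at hy; linarith
    subst ht
    rw [arc_zero] at he
    exact ⟨(pt_inj he).symm, rfl⟩
  · right
    have ht : t = 1 := by rw [h4] at hy; push_cast at hy; linarith
    subst ht
    rw [arc_one h] at he
    exact ⟨(pt_inj he).symm, rfl⟩

lemma arc_lt {a b a' b' : Vx L} (h : R a b) (h' : R a' b') (hy : Y a = Y a') (hx : X b < X b')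
    {ε ε' t : ℝ} (h0 : 0 < t) (h1 : t < 1) (e1 : ε ≤ 1 / 2) (e2 : 0 ≤ ε') :
    (arc a b ε t).1 < (arc a' b' ε' t).1 := by
  have k1 : (X a : ℝ) ≤ X a' := by exact_mod_cast X_mono h h' hy hx
  have k2 : (X b : ℝ) + 1 ≤ X b' := by exact_mod_cast hx
  simp only [arc]
  have k3 : 0 < t * (1 - t) := mul_pos h0 (by linarith)
  have k4 : (1 - t) * (X a : ℝ) ≤ (1 - t) * X a' := mul_le_mul_of_nonneg_left k1 (by linarith)
  have k5 : t * ((X b : ℝ) + 1) ≤ t * X b' := mul_le_mul_of_nonneg_left k2 h0.le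
  have k6 : ε * (t * (1 - t)) ≤ 1 / 2 * (t * (1 - t)) := mul_le_mul_of_nonneg_right e1 k3.le
  have k7 : 0 ≤ ε' * (t * (1 - t)) := mul_nonneg e2 k3.le
  nlinarith

lemma arc_cross {a b a' b' : Vx L} (h : R a b) (h' : R a' b') {ε ε' t t' : ℝ}
    (h0 : 0 ≤ t) (h1 : t ≤ 1) (h0' : 0 ≤ t') (h1' : t' ≤ 1) (e1 : 0 ≤ ε) (e2 : ε ≤ 1 / 2)
    (e3 : 0 ≤ ε') (e4 : ε' ≤ 1 / 2) (he : arc a b ε t = arc a' b' ε' t') :
    (∃ w : Vx L, arc a b ε t = pt w) ∨ (a = a' ∧ b = b' ∧ ε = ε') := by
  rcases h0.eq_or_lt with h2 | h2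
  · left; exact ⟨a, by rw [← h2, arc_zero]⟩
  rcases h1.eq_or_lt with h3 | h3
  · left; exact ⟨b, by rw [h3, arc_one h]⟩
  right
  have hy : (Y a : ℝ) + t = Y a' + t' := congrArg Prod.snd he
  have hY : Y a = Y a' := by
    have k1 : (Y a : ℝ) < Y a' + 1 := by linarith
    have k2 : (Y a' : ℝ) < Y a + 1 := by linarith
    have k3 : Y a < Y a' + 1 := by exact_mod_cast k1
    have k4 : Y a' < Y a + 1 := by exact_mod_cast k2
    omega
  have ht : t' = t := by rw [hY] at hy; linarith
  subst ht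
  have hx := congrArg Prod.fst he
  rcases lt_trichotomy (X b) (X b') with k | k | k
  · exact absurd hx (arc_lt h h' hY k h2 h3 e2 e3).ne
  · have hb : b = b' := by
      apply XY_inj k
      have k1 : Y b = Y a + 1 := h.2.1
      have k2 : Y b' = Y a' + 1 := h'.2.1
      omega
    subst hb
    have ha := R_unique h h'
    subst ha
    refine ⟨rfl, rfl, ?_⟩
    simp only [arc] at hx
    have k3 : 0 < t' * (1 - t') := mul_pos h2 (by linarith)
    have k4 : ε * (t' * (1 - t')) = ε' * (t' * (1 - t')) := by linarith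
    exact mul_right_cancel₀ k3.ne' k4
  · exact absurd hx.symm (arc_lt h' h hY.symm k h2 h3 e4 e1).ne

open Classical in
noncomputable def gam (u v : Vx L) (t : unitInterval) : ℝ × ℝ :=
  if R u v then arc u v 0 t else arc v u (1 / 2) (1 - t)

lemma not_R {a b : Vx L} (h : R a b) : ¬ R b a := fun h' => by
  have := h.2.1
  have := h'.2.1
  omega

lemma gam_basic {u v : Vx L} (h : (F L).Adj u v) :
    Continuous (gam u v) ∧ Function.Injective (gam u v) ∧ gam u v 0 = pt u ∧ gam u v 1 = pt v := by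
  by_cases hr : R u v
  · have e : gam u v = fun t : unitInterval => arc u v 0 t := by
      funext t; simp [gam, hr]
    rw [e]
    refine ⟨?_, ?_, ?_, ?_⟩
    · unfold arc; fun_prop
    · intro s t hst
      have := congrArg Prod.snd hst
      simp only [arc] at this
      exact Subtype.ext (by linarith)
    · simpa using arc_zero u v 0
    · simpa using arc_one hr 0
  · have hr' : R v u := h.resolve_left hr
    have e : gam u v = fun t : unitInterval => arc v u (1 / 2) (1 - t) := by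
      funext t; simp only [gam, hr, if_false]
    rw [e]
    refine ⟨?_, ?_, ?_, ?_⟩
    · unfold arc; fun_prop
    · intro s t hst
      have := congrArg Prod.snd hst
      simp only [arc] at this
      exact Subtype.ext (by linarith)
    · simpa using arc_one hr' (1 / 2)
    · simpa using arc_zero v u (1 / 2)

lemma gam_pt {u v w : Vx L} (x : unitInterval) (h : (F L).Adj u v) (he : gam u v x = pt w) :
    (w = u ∧ x = 0) ∨ (w = v ∧ x = 1) := by
  have x0 := x.2.1
  have x1 := x.2.2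
  by_cases hr : R u v
  · simp only [gam, hr, if_true] at he
    rcases arc_pt hr x0 x1 he with ⟨h1, h2⟩ | ⟨h1, h2⟩
    · exact Or.inl ⟨h1, Subtype.ext h2⟩
    · exact Or.inr ⟨h1, Subtype.ext h2⟩
  · have hr' : R v u := h.resolve_left hr
    simp only [gam, hr, if_false] at he
    rcases arc_pt hr' (by linarith) (by linarith) he with ⟨h1, h2⟩ | ⟨h1, h2⟩
    · exact Or.inr ⟨h1, Subtype.ext (by simp only [Set.Icc.coe_one]; linarith)⟩
    · exact Or.inl ⟨h1, Subtype.ext (by simp only [Set.Icc.coe_zero]; linarith)⟩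

lemma gam_cross {u v u' v' : Vx L} (x y : unitInterval) (h : (F L).Adj u v) (h' : (F L).Adj u' v')
    (hne : (u, v) ≠ (u', v')) (he : gam u v x = gam u' v' y) : ∃ w : Vx L, gam u v x = pt w := by
  have x0 := x.2.1
  have x1 := x.2.2
  have y0 := y.2.1
  have y1 := y.2.2
  by_cases hr : R u v <;> by_cases hr2 : R u' v'
  · simp only [gam, hr, hr2, if_true] at he ⊢
    rcases arc_cross hr hr2 x0 x1 y0 y1 le_rfl (by norm_num) le_rfl (by norm_num) he with k | k
    · exact k
    · exact absurd (by rw [k.1, k.2.1]) hne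
  · have hr' : R v' u' := h'.resolve_left hr2
    simp only [gam, hr, hr2, if_true, if_false] at he ⊢
    rcases arc_cross hr hr' x0 x1 (by linarith) (by linarith) le_rfl (by norm_num) (by norm_num)
      le_rfl he with k | k
    · exact k
    · exact absurd k.2.2 (by norm_num)
  · have hr' : R v u := h.resolve_left hr
    simp only [gam, hr, hr2, if_true, if_false] at he ⊢
    rcases arc_cross hr' hr2 (by linarith) (by linarith) y0 y1 (by norm_num) le_rfl le_rfl
      (by norm_num) he with k | k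
    · exact k
    · exact absurd k.2.2 (by norm_num)
  · have hr' : R v u := h.resolve_left hr
    have hr'' : R v' u' := h'.resolve_left hr2
    simp only [gam, hr, hr2, if_false] at he ⊢
    rcases arc_cross hr' hr'' (by linarith) (by linarith) (by linarith) (by linarith)
      (by norm_num) le_rfl (by norm_num) le_rfl he with k | k
    · exact k
    · exact absurd (by rw [k.1, k.2.1]) hne

lemma geom (y : ℕ) (L : ℕ) :
    ∑ j ∈ Finset.range L, (if 2 ^ j ≤ y then 2 ^ j else 0) ≤ 2 ^ L ∧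
    ∑ j ∈ Finset.range L, (if 2 ^ j ≤ y then 2 ^ j else 0) ≤ 2 * y := by
  induction L with
  | zero => simp
  | succ L ih =>
    rw [Finset.sum_range_succ, pow_succ]
    split_ifs with h
    · constructor <;> omega
    · constructor <;> omega

lemma fiber {W M : Type*} [DecidableEq M] {c : ℕ} (φ : W → M × ℕ × Fin c)
    (hφ : Function.Injective φ) (S : Finset W) (A : Finset M) (q : ℕ)
    (h1 : ∀ w ∈ S, (φ w).1 ∈ A) (h2 : ∀ w ∈ S, (φ w).2.1 ≤ q + 1 ∧ q ≤ (φ w).2.1 + 1) :
    S.card ≤ A.card * (3 * c) := by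
  classical
  have : S.card ≤ (A ×ˢ (Finset.Icc (q - 1) (q + 1) ×ˢ (Finset.univ : Finset (Fin c)))).card := by
    apply Finset.card_le_card_of_injOn φ
    · intro w hw
      have k := h2 w hw
      simp only [Finset.coe_product, Set.mem_prod, Finset.mem_coe, Finset.mem_Icc,
        Finset.mem_univ, and_true]
      exact ⟨h1 w hw, by omega, k.1⟩
    · exact hφ.injOn
  refine this.trans ?_
  rw [Finset.card_product, Finset.card_product, Nat.card_Icc, Finset.card_univ, Fintype.card_fin]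
  apply Nat.mul_le_mul_left
  apply Nat.mul_le_mul_right
  omega

/-- The counting: an embedding of the forest `F L` in `H ⊠ P ⊠ K_c` forces a large degree sum. -/
theorem count {M : Type*} [Fintype M] [DecidableEq M] (H : SimpleGraph M) [DecidableRel H.Adj]
    {c : ℕ} (φ : Vx L → M × ℕ × Fin c) (hφ : Function.Injective φ)
    (hadj : ∀ u v, (F L).Adj u v → ((φ u).1 = (φ v).1 ∨ H.Adj (φ u).1 (φ v).1) ∧
      (φ v).2.1 ≤ (φ u).2.1 + 1 ∧ (φ u).2.1 ≤ (φ v).2.1 + 1) :
    L * 2 ^ L ≤ 18 * c ^ 2 * (∑ x, H.degree x + Fintype.card M) := by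
  classical
  have hpos : 0 < 2 ^ L := by positivity
  have main : ∀ j ∈ Finset.range L, 2 ^ L ≤ 3 * c *
      ∑ x : M, (if 2 ^ j ≤ (H.degree x + 1) * (3 * c) then 2 ^ j else 0) := by
    intro j hj
    have hj' : j < L := Finset.mem_range.1 hj
    have hsplit : 2 ^ L = 2 ^ (L - j) * 2 ^ j := by rw [← pow_add]; congr 1; omega
    have hle : 2 ^ (L - j) ≤ 2 ^ L := Nat.pow_le_pow_right (by norm_num) (by omega)
    let root : Vx L := (⟨j, hj'⟩, 0, ⟨0, hpos⟩)
    let ch : Fin (2 ^ (L - j)) → Vx L := fun s => (⟨j, hj'⟩, 1, ⟨s, lt_of_lt_of_le s.2 hle⟩)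
    have hch : Function.Injective ch := by
      intro s t hst
      have := congrArg (fun z : Vx L => (z.2.2 : ℕ)) hst
      exact Fin.ext this
    have hrc : ∀ s, (F L).Adj root (ch s) := fun s => Or.inl ⟨rfl, rfl, rfl⟩
    let A : Finset M := Finset.univ.filter (fun x => 2 ^ j ≤ (H.degree x + 1) * (3 * c))
    have hA : ∀ s, (φ (ch s)).1 ∈ A := by
      intro s
      have hlt : ∀ t : Fin (2 ^ j), (s : ℕ) * 2 ^ j + t < 2 ^ L := by
        intro t
        have k1 : ((s : ℕ) + 1) * 2 ^ j ≤ 2 ^ (L - j) * 2 ^ j := Nat.mul_le_mul_right _ s.2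
        have k2 := t.2
        nlinarith
      let lf : Fin (2 ^ j) → Vx L := fun t => (⟨j, hj'⟩, 2, ⟨_, hlt t⟩)
      have hlf : Function.Injective lf := by
        intro t t' h
        have := congrArg (fun z : Vx L => (z.2.2 : ℕ)) h
        simp only [lf] at this
        exact Fin.ext (by omega)
      have hcl : ∀ t, (F L).Adj (ch s) (lf t) := by
        intro t
        refine Or.inl ⟨rfl, rfl, ?_⟩
        have hp : 0 < 2 ^ j := by positivity
        show (s : ℕ) = if ((2 : Fin 3) : ℕ) = 1 then 0 else ((s : ℕ) * 2 ^ j + t) / 2 ^ j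
        rw [if_neg (by decide), add_comm, Nat.add_mul_div_right _ _ hp, Nat.div_eq_of_lt t.2,
          zero_add]
      have := fiber (fun t => φ (lf t)) (hφ.comp hlf) Finset.univ
        (insert (φ (ch s)).1 (H.neighborFinset (φ (ch s)).1)) (φ (ch s)).2.1
        (fun t _ => by
          rcases (hadj _ _ (hcl t)).1 with h | h
          · rw [← h]; exact Finset.mem_insert_self _ _
          · exact Finset.mem_insert_of_mem ((SimpleGraph.mem_neighborFinset _ _ _).2 h))
        (fun t _ => (hadj _ _ (hcl t)).2)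
      rw [Finset.card_univ, Fintype.card_fin] at this
      have k := Finset.card_insert_le (φ (ch s)).1 (H.neighborFinset (φ (ch s)).1)
      rw [SimpleGraph.card_neighborFinset_eq_degree] at k
      simp only [A, Finset.mem_filter, Finset.mem_univ, true_and]
      exact this.trans (Nat.mul_le_mul_right _ k)
    have h2 := fiber (fun s => φ (ch s)) (hφ.comp hch) Finset.univ A (φ root).2.1
      (fun s _ => hA s) (fun s _ => (hadj _ _ (hrc s)).2)
    rw [Finset.card_univ, Fintype.card_fin] at h2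
    have h3 : ∑ x : M, (if 2 ^ j ≤ (H.degree x + 1) * (3 * c) then 2 ^ j else 0) =
        A.card * 2 ^ j := by
      rw [← Finset.sum_filter]
      simp [A]
    rw [h3, hsplit]
    calc 2 ^ (L - j) * 2 ^ j ≤ A.card * (3 * c) * 2 ^ j := Nat.mul_le_mul_right _ h2
      _ = 3 * c * (A.card * 2 ^ j) := by ring
  have h4 := Finset.sum_le_sum main
  rw [Finset.sum_const, Finset.card_range, smul_eq_mul, ← Finset.mul_sum, Finset.sum_comm] at h4
  have h5 : ∑ x : M, ∑ j ∈ Finset.range L,
      (if 2 ^ j ≤ (H.degree x + 1) * (3 * c) then 2 ^ j else 0) ≤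
      ∑ x : M, 2 * ((H.degree x + 1) * (3 * c)) :=
    Finset.sum_le_sum fun x _ => (geom _ L).2
  have h6 : ∑ x : M, 2 * ((H.degree x + 1) * (3 * c)) =
      6 * c * (∑ x, H.degree x + Fintype.card M) := by
    rw [← Finset.card_univ, Finset.card_eq_sum_ones, ← Finset.sum_add_distrib, Finset.mul_sum]
    exact Finset.sum_congr rfl fun x _ => by ring
  calc L * 2 ^ L ≤ _ := h4
    _ ≤ 3 * c * (6 * c * (∑ x, H.degree x + Fintype.card M)) :=
      Nat.mul_le_mul_left _ (h5.trans h6.le)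
    _ = _ := by ring

end Pool.Agent.H761Z.PlanarSize
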